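import Pool.Agent.Helper18.DC.DC1

/-!
DC-2: the nerve lemma.
-/

set_option autoImplicit false

namespace Pool.Agent.DC

open Finset

theorem Nerve.relAc_zero {α : Type} (K : Cx α) (S S' : Set α) : RelAc K 0 S S' := by
  intro n hn
  exact absurd hn (by omega)

theorem Nerve.relAc_self {α : Type} (K : Cx α) (d : ℕ) (S : Set α) : RelAc K d S S := by
  intro n _ c hc _
  refine ⟨0, c, ?_, hc, ?_⟩
  · intro a ha
    exact absurd rfl ha
  · rw [K.D_zero', zero_add]

theorem relAc_nerve {α β κ : Type} [DecidableEq β] [DecidableEq κ] (K : Cx α) (bot : α)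
    (head : β → κ) (d : ℕ) (E : Finset β) (S : β → Set α)
    (hS : ∀ i, Closed K (S i)) (hbot : ∀ i ∈ E, bot ∈ S i)
    (hdis : ∀ i ∈ E, ∀ j ∈ E, i ≠ j → head i = head j → S i ∩ S j ⊆ {bot})
    (hac : ∀ σ ⊆ E, σ.Nonempty → Set.InjOn head ↑σ → RelAc K d {a | ∀ i ∈ σ, a ∈ S i} ∅) :
    RelAc K (min d (E.image head).card) {a | ∃ i ∈ E, a ∈ S i} ∅ := by
  induction hn : E.card using Nat.strong_induction_on generalizing E S with
  | _ n IH =>
  rcases E.eq_empty_or_nonempty with hE | ⟨i, hi⟩
  · subst hE
    simp only [image_empty, card_empty, Nat.min_zero]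
    exact Nerve.relAc_zero K _ _
  set E' := E.erase i with hE'
  have hE'E : E' ⊆ E := erase_subset _ _
  have hins : insert i E' = E := insert_erase hi
  have hcard : E'.card < E.card := card_erase_lt_of_mem hi
  have hsplit : {a | ∃ j ∈ E, a ∈ S j} = {a | ∃ j ∈ E', a ∈ S j} ∪ S i := by
    ext a
    simp only [Set.mem_ofPred_eq, Set.mem_union]
    constructor
    · rintro ⟨j, hj, ha⟩
      rw [← hins, mem_insert] at hj
      rcases hj with rfl | hj
      · exact Or.inr ha
      · exact Or.inl ⟨j, hj, ha⟩
    · rintro (⟨j, hj, ha⟩ | ha)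
      · exact ⟨j, hE'E hj, ha⟩
      · exact ⟨i, hi, ha⟩
  have hclE' : Closed K {a | ∃ j ∈ E', a ∈ S j} := closed_iUnion K E' S hS
  have hSi : RelAc K d (S i) ∅ := by
    have := hac {i} (by simpa using hi) (singleton_nonempty i) (by simp)
    simpa using this
  by_cases hhead : head i ∈ E'.image head
  · -- the head of `i` occurs among the others
    have himg : E.image head = E'.image head := by
      rw [← hins, image_insert, insert_eq_of_mem hhead]
    rw [hsplit]
    have hU : RelAc K (min d (E.image head).card) {a | ∃ j ∈ E', a ∈ S j} ∅ := by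
      rw [himg]
      refine IH E'.card (by omega) E' S hS (fun j hj => hbot j (hE'E hj))
        (fun j hj k hk => hdis j (hE'E hj) k (hE'E hk))
        (fun σ hσ => hac σ (hσ.trans hE'E)) rfl
    set E'' := E'.filter (fun j => head j ≠ head i) with hE''
    have hE''E' : E'' ⊆ E' := filter_subset _ _
    have himg'' : E''.image head = (E'.image head).erase (head i) := by
      ext k
      simp only [hE'', mem_image, mem_filter, mem_erase]
      constructor
      · rintro ⟨j, ⟨hj, hne⟩, rfl⟩
        exact ⟨hne, j, hj, rfl⟩
      · rintro ⟨hne, j, hj, rfl⟩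
        exact ⟨j, ⟨hj, hne⟩, rfl⟩
    have hcard'' : (E''.image head).card = (E.image head).card - 1 := by
      rw [himg'', himg, card_erase_of_mem hhead]
    have hint : RelAc K (min d (E.image head).card - 1) ({a | ∃ j ∈ E', a ∈ S j} ∩ S i)
        (∅ ∩ ∅) := by
      rw [Set.inter_self]
      rcases E''.eq_empty_or_nonempty with he | ⟨j0, hj0⟩
      · rw [he] at hcard''
        simp only [image_empty, card_empty] at hcard''
        have : min d (E.image head).card - 1 = 0 := by omega
        rw [this]
        exact Nerve.relAc_zero K _ _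
      · have hset : {a | ∃ j ∈ E', a ∈ S j} ∩ S i = {a | ∃ j ∈ E'', a ∈ S j ∩ S i} := by
          ext a
          simp only [Set.mem_inter_iff, Set.mem_ofPred_eq]
          constructor
          · rintro ⟨⟨j, hj, haj⟩, hai⟩
            by_cases hji : head j = head i
            · have hne : j ≠ i := (mem_erase.mp hj).1
              have hab : a = bot := hdis j (hE'E hj) i hi hne hji ⟨haj, hai⟩
              subst hab
              exact ⟨j0, hj0, hbot j0 (hE'E (hE''E' hj0)), hai⟩
            · exact ⟨j, mem_filter.mpr ⟨hj, hji⟩, haj, hai⟩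
          · rintro ⟨j, hj, haj, hai⟩
            exact ⟨⟨j, hE''E' hj, haj⟩, hai⟩
        rw [hset]
        have key := IH E''.card (by
            have := card_le_card hE''E'
            omega) E'' (fun j => S j ∩ S i) (fun j => closed_inter K (hS j) (hS i))
          (fun j hj => ⟨hbot j (hE'E (hE''E' hj)), hbot i hi⟩)
          (fun j hj k hk hjk hh a ha =>
            hdis j (hE'E (hE''E' hj)) k (hE'E (hE''E' hk)) hjk hh ⟨ha.1.1, ha.2.1⟩)
          (by
            intro σ hσ hne hinj
            have hiσ : insert i σ ⊆ E := by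
              intro k hk
              rcases mem_insert.mp hk with rfl | hk
              · exact hi
              · exact hE'E (hE''E' (hσ hk))
            have hinj' : Set.InjOn head ↑(insert i σ) := by
              rw [coe_insert, Set.injOn_insert (fun h =>
                (mem_filter.mp (hσ (mem_coe.mp h))).2 rfl)]
              refine ⟨hinj, ?_⟩
              rintro ⟨k, hk, hki⟩
              exact (mem_filter.mp (hσ (mem_coe.mp hk))).2 hki
            have h := hac (insert i σ) hiσ (insert_nonempty i σ) hinj'
            have hs : {a | ∀ k ∈ insert i σ, a ∈ S k} = {a | ∀ k ∈ σ, a ∈ S k ∩ S i} := by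
              ext a
              simp only [Set.mem_ofPred_eq, mem_insert, forall_eq_or_imp, Set.mem_inter_iff]
              constructor
              · rintro ⟨h1, h2⟩ k hk
                exact ⟨h2 k hk, h1⟩
              · intro h
                obtain ⟨k, hk⟩ := hne
                exact ⟨(h k hk).2, fun l hl => (h l hl).1⟩
            rw [hs] at h
            exact h) rfl
        refine relAc_mono ?_ key
        rw [hcard'']
        omega
    have := relAc_union K (min d (E.image head).card) hclE' (closed_empty K) (hS i)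
      (closed_empty K) (Set.empty_subset _) (Set.empty_subset _) hU
      (relAc_mono (min_le_left _ _) hSi) hint
    simpa using this
  · -- a new head
    rw [hsplit]
    refine relAc_mono (min_le_left _ _) (relAc_cone K d hclE' (hS i) hSi ?_)
    have hset : {a | ∃ j ∈ E', a ∈ S j} ∩ S i = {a | ∃ j ∈ E', a ∈ S j ∩ S i} := by
      ext a
      simp only [Set.mem_inter_iff, Set.mem_ofPred_eq]
      constructor
      · rintro ⟨⟨j, hj, haj⟩, hai⟩
        exact ⟨j, hj, haj, hai⟩
      · rintro ⟨j, hj, haj, hai⟩
        exact ⟨⟨j, hj, haj⟩, hai⟩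
    rw [hset]
    refine relAc_cover K d E' S (fun j => S j ∩ S i) hS
      (fun j => closed_inter K (hS j) (hS i)) (fun j => Set.inter_subset_left) ?_
    intro σ hσ hne
    have hs : {a | ∀ k ∈ σ, a ∈ S k ∩ S i} = {a | ∀ k ∈ insert i σ, a ∈ S k} := by
      ext a
      simp only [Set.mem_ofPred_eq, mem_insert, forall_eq_or_imp, Set.mem_inter_iff]
      constructor
      · intro h
        obtain ⟨k, hk⟩ := hne
        exact ⟨(h k hk).2, fun l hl => (h l hl).1⟩
      · rintro ⟨h1, h2⟩ k hk
        exact ⟨h2 k hk, h1⟩
    show RelAc K d {a | ∀ k ∈ σ, a ∈ S k} {a | ∀ k ∈ σ, a ∈ S k ∩ S i}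
    by_cases hinj : Set.InjOn head ↑σ
    · rw [hs]
      have hiσ : insert i σ ⊆ E := by
        intro k hk
        rcases mem_insert.mp hk with rfl | hk
        · exact hi
        · exact hE'E (hσ hk)
      have hinj' : Set.InjOn head ↑(insert i σ) := by
        have hnot : i ∉ (↑σ : Set β) := fun h => by
          have := hσ (mem_coe.mp h)
          exact (mem_erase.mp this).1 rfl
        rw [coe_insert, Set.injOn_insert hnot]
        refine ⟨hinj, ?_⟩
        rintro ⟨k, hk, hki⟩
        exact hhead (mem_image.mpr ⟨k, hσ (mem_coe.mp hk), hki⟩)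
      refine relAc_pair K d (closed_iInter K σ S hS)
        (closed_iInter K _ S hS) ?_
        (hac σ (hσ.trans hE'E) hne hinj) (hac _ hiσ (insert_nonempty i σ) hinj')
      intro a ha k hk
      exact ha k (mem_insert_of_mem hk)
    · have h1 : {a | ∀ k ∈ σ, a ∈ S k} = {bot} := by
        rw [Set.InjOn] at hinj
        push Not at hinj
        obtain ⟨k, hk, l, hl, hkl, hne'⟩ := hinj
        apply Set.Subset.antisymm
        · intro a ha
          exact hdis k (hE'E (hσ (mem_coe.mp hk))) l (hE'E (hσ (mem_coe.mp hl))) hne' hkl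
            ⟨ha k (mem_coe.mp hk), ha l (mem_coe.mp hl)⟩
        · rintro a rfl k' hk'
          exact hbot k' (hE'E (hσ hk'))
      have h2 : {a | ∀ k ∈ σ, a ∈ S k ∩ S i} = {bot} := by
        apply Set.Subset.antisymm
        · rw [← h1]
          intro a ha k hk
          exact (ha k hk).1
        · rintro a rfl k hk
          exact ⟨hbot k (hE'E (hσ hk)), hbot i hi⟩
      rw [h1, h2]
      exact Nerve.relAc_self K d _

end Pool.Agent.DC
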